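import Pool.Agent.VB.C

/-!
# Finite boundaries

A structure has finite boundaries at level `γ` when for every countable subset `A` which is
closed at level `γ` (an elementary substructure in the sense of the back-and-forth relation of
level `γ`) every component of the complement of `A` in the Gaifman graph has a finite boundary
in `A`.
-/

set_option autoImplicit false
set_option linter.unusedSectionVars false
set_option linter.unusedVariables false

namespace Pool.Agent.Helper97.VC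

open Set Pool.Agent.Helper5.DU Pool.Agent.Helper6.Str Pool.Agent.Helper79.VC

variable {L : FirstOrder.Language.{0, 0}} {M N : Type}

/-- `A` is closed at level `γ`: over every finite subset of `A` every element of the structure
has the same type of level `γ` as some element of `A`. -/
def ClosedAt (S : L.Structure M) (γ : Ordinal.{0}) (A : Set M) : Prop :=
  ∀ F : Finset M, (F : Set M) ⊆ A → ∀ c : M, ∃ d ∈ A,
    BFR S S univ univ γ (insert (c, d) ((fun a => (a, a)) '' (F : Set M)))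

/-- the boundary in `A` of the component of `c` in the complement of `A` -/
def bdry {V : Type} (G : SimpleGraph V) (A : Set V) (c : V) : Set V :=
  {a | a ∈ A ∧ ∃ x ∈ cpt G A c, G.Adj a x}

/-- finite boundaries at level `γ` -/
def FinBdry (S : L.Structure M) (γ : Ordinal.{0}) : Prop :=
  ∀ A : Set M, A.Countable → ClosedAt S γ A → ∀ c, c ∉ A → (bdry (gaif S) A c).Finite

/-- **Closing off**, with the hypothesis of finite boundaries. -/
theorem false_of_finBdry {S : L.Structure M} (hswap : SwapStatement S) (hNT : NoCtblType S)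
    (hD : ∀ Q : Finset M, ∃ DD : Set (Set M), DD.Countable ∧
      (∀ D ∈ DD, IsCpt (gaif S) (Q : Set M) D) ∧
      ∀ C, IsCpt (gaif S) (Q : Set M) C → C ∉ DD →
        {D ∈ DD | Tame S (Q : Set M) D ∧ ∀ γ < om1,
          BFR S S (C ∪ (Q : Set M)) (D ∪ (Q : Set M)) γ ((fun a => (a, a)) '' (Q : Set M))}.Infinite)
    {γ₀ : Ordinal.{0}} (hcc : ∀ F : Finset M, ∃ T : Set M, T.Countable ∧ ∀ c : M, ∃ c' ∈ T,
      BFR S S univ univ γ₀ (insert (c, c') ((fun a => (a, a)) '' (F : Set M))))
    (hFB : FinBdry S γ₀) : False := by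
  classical
  set G := gaif S with hG
  choose DD hDDc hDDi hDDe using hD
  choose TT hTT1 hTT2 using hcc
  -- a countable set which is closed
  obtain ⟨A, hAc, hAcl, hA⟩ : ∃ A : Set M, A.Countable ∧ ClosedAt S γ₀ A ∧
      (∀ Q : Finset M, (Q : Set M) ⊆ A → ∀ D ∈ DD Q, ∃ x ∈ D, x ∈ A) ∧
      (∀ Q : Finset M, (Q : Set M) ⊆ A → ∀ x ∈ A, x ∉ Q → Tame S (Q : Set M) (cpt G (Q : Set M) x) →
        ∃ B : Set M, B ⊆ A ∧ B ⊆ cpt G (Q : Set M) x ∪ Q ∧ B.Countable ∧
          ∀ c ∈ cpt G (Q : Set M) x ∪ Q, ∃ d ∈ B, ∀ γ < om1,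
            BFR S S (cpt G (Q : Set M) x ∪ Q) (cpt G (Q : Set M) x ∪ Q) γ
              (insert (c, d) (dg (Q : Set M)))) := by
    let f1 : Finset M → Set M := fun Q =>
      ⋃ D ∈ DD Q, (if h : D.Nonempty then {h.some} else ∅)
    have hTB : ∀ (Q : Finset M) (x : M), ∃ B : Set M, B.Countable ∧
        (Tame S (Q : Set M) (cpt G (Q : Set M) x) → B ⊆ cpt G (Q : Set M) x ∪ Q ∧
          ∀ c ∈ cpt G (Q : Set M) x ∪ Q, ∃ d ∈ B, ∀ γ < om1,
            BFR S S (cpt G (Q : Set M) x ∪ Q) (cpt G (Q : Set M) x ∪ Q) γ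
              (insert (c, d) (dg (Q : Set M)))) := by
      intro Q x
      by_cases h : Tame S (Q : Set M) (cpt G (Q : Set M) x)
      · obtain ⟨B, h1, h2, h3⟩ := h
        exact ⟨B, h2, fun _ => ⟨h1, h3⟩⟩
      · exact ⟨∅, countable_empty, fun h' => absurd h' h⟩
    choose TB hTB1 hTB2 using hTB
    let f2 : Finset M → Set M := fun F => ⋃ x ∈ F, TB (F.erase x) x
    have hc1 : ∀ Q, (f1 Q).Countable := by
      intro Q
      refine (hDDc Q).biUnion fun D hD => ?_
      split_ifs with h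
      · exact countable_singleton _
      · exact countable_empty
    have hc2 : ∀ F, (f2 F).Countable := fun F =>
      (F.finite_toSet.countable).biUnion fun x _ => hTB1 _ _
    obtain ⟨A, hAc, hA⟩ := exists_closed (fun F => f1 F ∪ f2 F ∪ TT F)
      (fun F => ((hc1 F).union (hc2 F)).union (hTT1 F))
    refine ⟨A, hAc, fun F hF c => ?_, fun Q hQ D hD => ?_, fun Q hQ x hx hxQ hT => ?_⟩
    · obtain ⟨c', hc', h⟩ := hTT2 F c
      exact ⟨c', hA F hF (Or.inr hc'), h⟩
    · have hne : D.Nonempty := isCpt_nonempty (hDDi Q D hD)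
      refine ⟨hne.some, hne.some_mem, hA Q hQ (Or.inl (Or.inl ?_))⟩
      simp only [f1, mem_iUnion]
      exact ⟨D, hD, by rw [dif_pos hne]; exact rfl⟩
    · have hF : ((insert x Q : Finset M) : Set M) ⊆ A := by
        rw [Finset.coe_insert, insert_subset_iff]
        exact ⟨hx, hQ⟩
      have he : (insert x Q).erase x = Q := Finset.erase_insert hxQ
      have hsub : TB Q x ⊆ A := by
        intro y hy
        refine hA _ hF (Or.inl (Or.inr ?_))
        simp only [f2, mem_iUnion]
        refine ⟨x, Finset.mem_insert_self _ _, ?_⟩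
        rw [he]
        exact hy
      exact ⟨TB Q x, hsub, (hTB2 Q x hT).1, hTB1 Q x, (hTB2 Q x hT).2⟩
  obtain ⟨hA1, hA2⟩ := hA
  refine hNT ⟨A, hAc, fun F hF c => ?_⟩
  by_cases hcA : c ∈ A
  · refine ⟨c, hcA, fun γ _ => BFR.refl S univ γ ?_⟩
    rintro a (rfl | ⟨x, _, rfl⟩)
    · exact ⟨mem_univ _, rfl⟩
    · exact ⟨mem_univ _, rfl⟩
  set C := cpt G A c with hC
  have hCA : ∀ x ∈ C, x ∉ A := fun x hx => conn_notMem hcA hx
  have hfin : (bdry G A c).Finite := hFB A hAc hAcl c hcA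
  obtain ⟨Q, hQN⟩ : ∃ Q : Finset M, (Q : Set M) = bdry G A c :=
    ⟨hfin.toFinset, hfin.coe_toFinset⟩
  have hQA : (Q : Set M) ⊆ A := by
    rw [hQN]
    exact fun a ha => ha.1
  obtain ⟨hCeq, hCis⟩ := isCpt_of_nbhd (G := G) hcA (Q := (Q : Set M)) (by
    intro a
    rw [hQN]
    exact Iff.rfl)
  have hcQ : c ∉ (Q : Set M) := fun h => hcA (hQA h)
  have hcC : c ∈ C := mem_cpt_self A c
  have hCDD : C ∉ DD Q := by
    intro h
    obtain ⟨x, hx, hxA⟩ := hA1 Q hQA C h
    exact hCA x hx hxA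
  have hinf := hDDe Q C hCis hCDD
  -- a component away from the finite set
  obtain ⟨D, ⟨hDD, hDT, hDE⟩, hDF⟩ : ∃ D, (D ∈ DD Q ∧ Tame S (Q : Set M) D ∧ ∀ γ < om1,
      BFR S S (C ∪ (Q : Set M)) (D ∪ (Q : Set M)) γ (dg (Q : Set M))) ∧ ∀ a ∈ F, a ∉ D := by
    by_contra hcon
    push Not at hcon
    refine hinf ?_
    refine (F.finite_toSet.image (fun a => cpt G (Q : Set M) a)).subset ?_
    rintro D ⟨hD1, hD2, hD3⟩
    obtain ⟨a, haF, haD⟩ := hcon D ⟨hD1, hD2, hD3⟩
    exact ⟨a, haF, (isCpt_eq_cpt (hDDi Q D hD1) haD).symm⟩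
  have hCD : C ≠ D := fun h => hCDD (h ▸ hDD)
  have hDis := hDDi Q D hDD
  obtain ⟨x, hxD, hxA⟩ := hA1 Q hQA D hDD
  have hDx : D = cpt G (Q : Set M) x := isCpt_eq_cpt hDis hxD
  have hxQ : x ∉ (Q : Set M) := isCpt_notMem hDis hxD
  obtain ⟨B, hBA, hBD, hBc, hB⟩ := hA2 Q hQA x hxA (fun h => hxQ h) (hDx ▸ hDT)
  rw [← hDx] at hBD hB
  -- an element realising the type of `c`
  obtain ⟨d, hdB, hd⟩ := exists_uniform hBc
    (fun d γ => BFR S S (C ∪ (Q : Set M)) (D ∪ (Q : Set M)) γ (insert (c, d) (dg (Q : Set M))))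
    (fun d β γ hβ h => h.mono hβ) (by
      intro γ hγ
      have h1 := hDE (γ + 1) (add_one_lt_om1 hγ)
      obtain ⟨d, hd, h2⟩ := h1.forth (Order.lt_add_one_iff.mpr le_rfl) (Or.inl hcC)
      obtain ⟨d', hd', h3⟩ := hB d hd
      refine ⟨d', hd', BFR.trans h2 (h3 γ hγ) ?_⟩
      rintro a (rfl | ⟨q, hq, rfl⟩)
      · exact ⟨d, mem_insert _ _, mem_insert _ _⟩
      · exact ⟨q, mem_insert_of_mem _ ⟨q, hq, rfl⟩, mem_insert_of_mem _ ⟨q, hq, rfl⟩⟩)
  have hdD : d ∈ D := by
    rcases hBD hdB with h | h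
    · exact h
    · exfalso
      have h0 := (hd 0 (Ordinal.omega_pos 1)).atEq
      have h1 := h0.1 (c, d) (mem_insert _ _) (d, d) (mem_insert_of_mem _ ⟨d, h, rfl⟩)
      simp only [iff_true] at h1
      exact hcQ (h1 ▸ h)
  refine ⟨d, hBA hdB, fun γ hγ => ?_⟩
  have h4 := hswap (Q : Set M) C D (F : Set M) c d γ hCis hDis hCD hcC hdD (hd γ hγ)
    (fun a ha => ⟨fun h => hCA a h (hF ha), fun h => hDF a ha h⟩)
  refine BFR.anti ?_ h4
  exact insert_subset_insert (image_mono subset_union_left)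

/-- the classes of level `d` over a finite set have countably many representatives -/
theorem exists_reps {K : Set (L.Structure ℕ)} (hS : Scat K) {d : Ordinal.{0}}
    (hd : d < om1) {S : L.Structure M} (hlev : Lev K S) (F : Finset M) :
    ∃ T : Set M, T.Countable ∧ ∀ c : M, ∃ c' ∈ T,
      BFR S S univ univ d (insert (c, c') ((fun a => (a, a)) '' (F : Set M))) := by
  classical
  obtain ⟨κ, hκ⟩ := countable_classes hS hd hlev F
  have hrep : ∀ (m : ℕ), ∃ T : Set M, T.Countable ∧
      ((∃ c, κ c = m) → ∃ c ∈ T, κ c = m) := by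
    intro m
    by_cases h : ∃ c, κ c = m
    · obtain ⟨c, hc⟩ := h
      exact ⟨{c}, countable_singleton _, fun _ => ⟨c, rfl, hc⟩⟩
    · exact ⟨∅, countable_empty, fun h' => absurd h' h⟩
  choose T hT1 hT2 using hrep
  refine ⟨⋃ m, T m, countable_iUnion hT1, fun c => ?_⟩
  obtain ⟨c', hc', hcc⟩ := hT2 (κ c) ⟨c, rfl⟩
  exact ⟨c', mem_iUnion.mpr ⟨κ c, hc'⟩, hκ c c' hcc.symm⟩

/-- a connection uses finitely many vertices -/
theorem exists_finite_conn {V : Type} {G : SimpleGraph V} {Z : Set V} {x y : V}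
    (h : Conn G Z x y) : ∃ W : Set V, W.Finite ∧ x ∈ W ∧ y ∈ W ∧ Conn G (Z ∪ Wᶜ) x y := by
  induction h with
  | refl => exact ⟨{x}, finite_singleton x, rfl, rfl, Relation.ReflTransGen.refl⟩
  | tail _ hab ih =>
    rename_i a b h1
    obtain ⟨W, hW, hx, ha, hc⟩ := ih
    refine ⟨insert b W, hW.insert b, mem_insert_of_mem _ hx, mem_insert _ _, ?_⟩
    refine Relation.ReflTransGen.tail (b := a) (conn_mono ?_ hc) ⟨hab.1, ?_, ?_⟩
    · rintro z (hz | hz)
      · exact Or.inl hz
      · exact Or.inr fun h => hz (mem_insert_of_mem _ h)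
    · rintro (h | h)
      · exact hab.2.1 h
      · exact h (mem_insert_of_mem _ ha)
    · rintro (h | h)
      · exact hab.2.2 h
      · exact h (mem_insert _ _)

variable [∀ n, IsEmpty (L.Functions n)]

/-- connections inside the range of an enumeration can be pulled back -/
theorem conn_pl {S : L.Structure M} {f : N → M} (hf : Function.Injective f)
    (hadj : ∀ x y, (gaif S).Adj (f x) (f y) → (gaif (pl S f)).Adj x y) {A : Set M} {x : N}
    {z : M} (h : Conn (gaif S) (A ∪ (range f)ᶜ) (f x) z) :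
    ∀ y, f y = z → Conn (gaif (pl S f)) (f ⁻¹' A) x y := by
  induction h with
  | refl =>
    intro y hy
    rw [hf hy]
    exact Relation.ReflTransGen.refl
  | tail _ hab ih =>
    rename_i a b h1
    intro y hy
    subst hy
    have ha : a ∈ range f := by
      by_contra h
      exact hab.2.1 (Or.inr h)
    obtain ⟨a', rfl⟩ := ha
    refine Relation.ReflTransGen.tail (ih a' rfl) ⟨hadj _ _ hab.1, ?_, ?_⟩
    · exact fun h => hab.2.1 (Or.inl h)
    · exact fun h => hab.2.2 (Or.inl h)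

variable [∀ n, Countable (L.Relations n)]

/-- **Reflection of finite boundaries.** -/
theorem finBdry_reflect {K : Set (L.Structure ℕ)} (hS : Scat K) {d : Ordinal.{0}} (hd : d < om1)
    (hcl : ClosedLev K d) {γ : Ordinal.{0}} (hγ : γ < om1) (hFB : ∀ S' ∈ K, FinBdry S' γ)
    {M : Type} {S : L.Structure M} (hlev : Lev K S) : FinBdry S γ := by
  classical
  intro A hAc hAcl c hcA
  by_contra hinf
  have hinfb : (bdry (gaif S) A c).Infinite := hinf
  set δ := max d γ with hδ
  have hδ1 : δ < om1 := max_lt hd hγ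
  -- witnesses
  have hwit : ∀ x y : M, ∃ W : Set M, W.Countable ∧
      ((gaif S).Adj x y → ∃ (n : ℕ) (R : L.Relations n) (v : Fin n → M),
        S.RelMap R v ∧ x ∈ range v ∧ y ∈ range v ∧ range v ⊆ W) := exists_witness
  choose W hWc hW using hwit
  have hpath : ∀ x y : M, ∃ P : Set M, P.Countable ∧ (Conn (gaif S) A x y →
      Conn (gaif S) (A ∪ Pᶜ) x y) := by
    intro x y
    by_cases h : Conn (gaif S) A x y
    · obtain ⟨P, hP, -, -, hc⟩ := exists_finite_conn h
      exact ⟨P, hP.countable, fun _ => hc⟩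
    · exact ⟨∅, countable_empty, fun h' => absurd h' h⟩
  choose P hPc hP using hpath
  have hX : ∀ a : M, ∃ x : M, a ∈ bdry (gaif S) A c → x ∈ cpt (gaif S) A c ∧ (gaif S).Adj a x := by
    intro a
    by_cases h : a ∈ bdry (gaif S) A c
    · obtain ⟨x, hx, hax⟩ := h.2
      exact ⟨x, fun _ => ⟨hx, hax⟩⟩
    · exact ⟨a, fun h' => absurd h' h⟩
  choose X hX using hX
  have hT : ∀ F : Finset M, ∃ T : Set M, T.Countable ∧ ∀ c : M, ∃ c' ∈ T,
      BFR S S univ univ δ (insert (c, c') ((fun a => (a, a)) '' (F : Set M))) :=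
    fun F => exists_reps hS hδ1 hlev F
  choose T hT1 hT2 using hT
  let B₀ : Set M := insert c (A ∪ X '' A)
  have hB₀ : B₀.Countable := (hAc.union (hAc.image X)).insert c
  obtain ⟨B, hBc, hB⟩ := exists_closed
    (fun F => (B₀ ∪ T F) ∪ ⋃ x ∈ F, ⋃ y ∈ F, (W x y ∪ P x y))
    (fun F => (hB₀.union (hT1 F)).union ((F.finite_toSet.countable).biUnion fun x _ =>
        (F.finite_toSet.countable).biUnion fun y _ => (hWc _ _).union (hPc _ _)))
  have hBB₀ : B₀ ⊆ B := fun x hx => hB ∅ (by simp) (Or.inl (Or.inl hx))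
  have hBW : ∀ x ∈ B, ∀ y ∈ B, W x y ∪ P x y ⊆ B := by
    intro x hx y hy z hz
    refine hB (insert x (insert y ∅)) ?_ (Or.inr ?_)
    · rw [Finset.coe_insert, Finset.coe_insert, insert_subset_iff, insert_subset_iff]
      exact ⟨hx, hy, by simp⟩
    · simp only [mem_iUnion]
      exact ⟨x, by simp, y, by simp, hz⟩
  have hBδ : ∀ F : Finset M, (F : Set M) ⊆ B → ∀ c : M, ∃ c' ∈ B,
      BFR S S univ univ δ (insert (c, c') ((fun a => (a, a)) '' (F : Set M))) := by
    intro F hF c
    obtain ⟨c', hc', h⟩ := hT2 F c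
    exact ⟨c', hB F hF (Or.inl (Or.inr hc')), h⟩
  have hcB : c ∈ B := hBB₀ (mem_insert _ _)
  have hAB : A ⊆ B := fun a ha => hBB₀ (mem_insert_of_mem _ (Or.inl ha))
  have hinf := infinite_of_lev hlev
  obtain ⟨f, hf, hfB⟩ := exists_enum hBc (fun F hF c => by
    obtain ⟨c', hc', h⟩ := hBδ F hF c
    exact ⟨c', hc', h.mono bot_le⟩)
  -- the countable structure belongs to `K`
  have hSB : BFR S (pl S f) univ univ d ∅ := by
    have h4 : BFR S S univ B d ∅ := closed_rel hBδ d (le_max_left _ _) ∅ finite_empty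
      (fun a ha => absurd ha (notMem_empty a))
      (BFR.refl S univ d fun a ha => absurd ha (notMem_empty a))
    rw [← hfB] at h4
    exact BFR_pl' hf h4 fun a ha => absurd ha (notMem_empty a)
  obtain ⟨S1, hS1, h5⟩ := hlev d hd
  have hK : pl S f ∈ K := hcl S1 hS1 _ (by
    refine BFR.trans (h5.symm (q := ∅) fun a ha => absurd ha (notMem_empty a)) hSB ?_
    exact fun a ha => absurd ha (notMem_empty a))
  -- adjacency is the same
  have hadj : ∀ x y, (gaif S).Adj (f x) (f y) → (gaif (pl S f)).Adj x y := by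
    intro x y hxy
    have hx : f x ∈ B := hfB ▸ mem_range_self x
    have hy : f y ∈ B := hfB ▸ mem_range_self y
    obtain ⟨n, R, v, hv, hxv, hyv, hvW⟩ := hW _ _ hxy
    have hvr : ∀ i, ∃ k, f k = v i := by
      intro i
      have : v i ∈ B := hBW _ hx _ hy (Or.inl (hvW (mem_range_self i)))
      rw [← hfB] at this
      exact this
    choose k hk using hvr
    refine ⟨fun h => hxy.ne (congrArg f h), n, R, k, ?_, ?_, ?_⟩
    · show S.RelMap R (fun i => f (k i))
      have : (fun i => f (k i)) = v := funext hk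
      rw [this]
      exact hv
    · obtain ⟨i, hi⟩ := hxv
      exact ⟨i, hf ((hk i).trans hi)⟩
    · obtain ⟨i, hi⟩ := hyv
      exact ⟨i, hf ((hk i).trans hi)⟩
  -- closedness of the pulled back set
  have hcl' : ClosedAt (pl S f) γ (f ⁻¹' A) := by
    intro F hF c'
    obtain ⟨e, he, h6⟩ := hAcl (F.image f) (by
      rw [Finset.coe_image]
      rintro _ ⟨a, ha, rfl⟩
      exact hF ha) (f c')
    obtain ⟨e', rfl⟩ : ∃ e', f e' = e := by
      have := hAB he
      rw [← hfB] at this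
      exact this
    refine ⟨e', he, ?_⟩
    have hsub : ∀ p : Set (M × M), p.Finite → (∀ a ∈ p, a.2 ∈ B) → BFR S S univ univ γ p →
        BFR S S univ (range f) γ p := by
      intro p hp hpB h
      rw [hfB]
      exact closed_rel hBδ γ (le_max_right _ _) p hp hpB h
    have hfr : ∀ n, f n ∈ B := fun n => hfB ▸ mem_range_self n
    -- first: `S` and the pulled back structure, identity
    have h7 : BFR S (pl S f) univ univ γ (insert (f c', c') ((fun a => (f a, a)) '' (F : Set ℕ))) := by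
      have h8 : BFR S S univ (range f) γ
          (insert (f c', f c') ((fun a => (f a, f a)) '' (F : Set ℕ))) := by
        refine hsub _ ((F.finite_toSet.image _).insert _) ?_ ?_
        · rintro a (rfl | ⟨x, _, rfl⟩)
          · exact hfr _
          · exact hfr _
        · refine BFR.refl S univ γ ?_
          rintro a (rfl | ⟨x, _, rfl⟩)
          · exact ⟨mem_univ _, rfl⟩
          · exact ⟨mem_univ _, rfl⟩
      refine BFR_pl' hf h8 ?_
      rintro a (rfl | ⟨x, hx, rfl⟩)
      · exact mem_insert _ _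
      · exact mem_insert_of_mem _ ⟨x, hx, rfl⟩
    have h9 : BFR S (pl S f) univ univ γ (insert (f c', e') ((fun a => (f a, a)) '' (F : Set ℕ))) := by
      have h10 : BFR S S univ (range f) γ
          (insert (f c', f e') ((fun a => (a, a)) '' ((F.image f : Finset M) : Set M))) := by
        refine hsub _ (((F.image f).finite_toSet.image _).insert _) ?_ h6
        rintro a (rfl | ⟨x, hx, rfl⟩)
        · exact hfr _
        · rw [Finset.coe_image] at hx
          obtain ⟨y, _, rfl⟩ := hx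
          exact hfr _
      refine BFR_pl' hf h10 ?_
      rintro a (rfl | ⟨x, hx, rfl⟩)
      · exact mem_insert _ _
      · refine mem_insert_of_mem _ ⟨f x, ?_, rfl⟩
        rw [Finset.coe_image]
        exact mem_image_of_mem f hx
    have h11 : BFR (pl S f) S univ univ γ (insert (c', f c') ((fun a => (a, f a)) '' (F : Set ℕ))) := by
      refine h7.symm ?_
      rintro a (rfl | ⟨x, hx, rfl⟩)
      · exact mem_insert _ _
      · exact mem_insert_of_mem _ ⟨x, hx, rfl⟩
    refine BFR.trans h11 h9 ?_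
    rintro a (rfl | ⟨x, hx, rfl⟩)
    · exact ⟨f c', mem_insert _ _, mem_insert _ _⟩
    · exact ⟨f x, mem_insert_of_mem _ ⟨x, hx, rfl⟩, mem_insert_of_mem _ ⟨x, hx, rfl⟩⟩
  obtain ⟨c', rfl⟩ : ∃ c', f c' = c := by
    rw [← hfB] at hcB
    exact hcB
  have hfin := hFB _ hK (f ⁻¹' A) (to_countable _) hcl' c' hcA
  -- the boundary is infinite
  refine hinfb ((hfin.image f).subset ?_)
  intro a ha
  have haB : a ∈ B := hAB ha.1
  obtain ⟨a', rfl⟩ : ∃ a', f a' = a := by
    rw [← hfB] at haB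
    exact haB
  refine ⟨a', ⟨ha.1, ?_⟩, rfl⟩
  obtain ⟨hx1, hx2⟩ := hX _ ha
  have hxB : X (f a') ∈ B := hBB₀ (mem_insert_of_mem _ (Or.inr ⟨_, ha.1, rfl⟩))
  obtain ⟨x', hx'⟩ : ∃ x', f x' = X (f a') := by
    rw [← hfB] at hxB
    exact hxB
  rw [← hx'] at hx1 hx2
  refine ⟨x', ?_, hadj _ _ hx2⟩
  have h12 : Conn (gaif S) (A ∪ (P (f c') (f x'))ᶜ) (f c') (f x') := hP _ _ hx1
  have h13 : Conn (gaif S) (A ∪ (range f)ᶜ) (f c') (f x') := by
    refine conn_mono ?_ h12
    rintro z (hz | hz)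
    · exact Or.inl hz
    · refine Or.inr fun h => hz ?_
      rw [hfB]
      exact hBW _ (hfB ▸ mem_range_self c') _ (hfB ▸ mem_range_self x') (Or.inr h)
  exact conn_pl hf hadj h13 x' rfl

end Pool.Agent.Helper97.VC
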