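import Pool.Agent.Helper6.VC.FB
import Pool.Agent.Helper97.VC.MainFB

/-!
# The dichotomy for classes with finite boundaries, in the form for classes of structures on the
natural numbers
-/

set_option autoImplicit false

namespace Pool.Agent.Helper97.VC

open Set Pool.Agent.Helper5.DU Pool.Agent.Helper6.Str Pool.Agent.Helper79.VC

variable {L : FirstOrder.Language.{0, 0}}

theorem main_FB [∀ n, IsEmpty (L.Functions n)] [∀ n, Countable (L.Relations n)]
    (K : Set (L.Structure ℕ)) (hK : MeasurableSet {c : Code L | toStr c ∈ K}) (d : Ordinal.{0})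
    (hd : d < om1) (hcl : ClosedLev K d) (g : Ordinal.{0}) (hg : g < om1)
    (hFB : Pool.Agent.Helper6.VC.FinBdry K g) (hP : ¬ PerfK K) : CtblK K := by
  classical
  refine main_finBdry K hK d hd hcl (max d g) (max_lt hd hg) ?_ hP
  intro S hS A hA hAcl c hc
  obtain ⟨f, hf, hfA⟩ := exists_enum (M := ℕ) hA (fun F hF c => by
    obtain ⟨c', hc', h⟩ := hAcl F hF c
    exact ⟨c', hc', h.mono bot_le⟩)
  have hE : ∀ γ ≤ max d g, ∀ F : Finset ℕ, (F : Set ℕ) ⊆ A →
      BFR S S univ A γ ((fun a => (a, a)) '' (F : Set ℕ)) := by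
    intro γ hγ F hF
    refine closed_rel hAcl γ hγ _ (F.finite_toSet.image _) ?_ (BFR.refl S univ γ ?_)
    · rintro a ⟨x, hx, rfl⟩
      exact hF hx
    · rintro a ⟨x, hx, rfl⟩
      exact ⟨mem_univ _, rfl⟩
  have hpl : pl S f ∈ K := by
    refine hcl S hS _ ?_
    have h1 := hE d (le_max_left _ _) ∅ (by simp)
    rw [← hfA] at h1
    exact BFR_pl' hf h1 fun a ha => absurd ha (notMem_empty a)
  have hfin := hFB S hS f hf hpl (by
    intro F hF
    rw [hfA] at hF ⊢
    exact hE g (le_max_right _ _) F hF) c (by rw [hfA]; exact hc)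
  rw [hfA] at hfin
  exact hfin

end Pool.Agent.Helper97.VC
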